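import Pool.Agent.Helper548.LoopFinal

/-!
# Finite abelian inner mapping groups of loops are exactly the capable finite abelian groups

For a finite abelian group `G` the following are equivalent:

1. `G` is the inner mapping group of some loop (possibly infinite);
2. `G` is the inner mapping group of a finite *group* `Q` of nilpotency class at most two whose
   order divides `|G| ^ 3`;
3. `G ≅ P / Z(P)` for some group `P`;
4. `G ≅ C_e × C_e × D` with `e ≥ 1` and `d ^ e = 1` for all `d ∈ D`;
5. for no `n` the subgroup of `n`-th powers of `G` has prime order.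

Moreover every loop `Q` (possibly infinite) whose inner mapping group is finite and abelian is
centrally nilpotent, has a finite quotient `Q / Z(Q)`, and if it is generated by three elements
then its class is at most three and `Q / Z(Q)` is a group.
-/

namespace Pool.Agent.Results.MP_c6182e_al.CapableExactly

open Equiv

universe u v

/-- `Q` is a loop: `1` is a two-sided identity and all left and right translations are
bijections. -/
structure IsLoop (Q : Type u) [Mul Q] [One Q] : Prop where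
  one_mul : ∀ x : Q, 1 * x = x
  mul_one : ∀ x : Q, x * 1 = x
  left_bijective : ∀ a : Q, Function.Bijective (fun x : Q => a * x)
  right_bijective : ∀ a : Q, Function.Bijective (fun x : Q => x * a)

/-- The multiplication group: the group of permutations generated by all left and right
translations. -/
def multGroup (Q : Type u) [Mul Q] : Subgroup (Equiv.Perm Q) :=
  Subgroup.closure {g | ∃ a : Q, (∀ x, g x = a * x) ∨ (∀ x, g x = x * a)}

/-- The inner mapping group: the stabilizer of `1` in the multiplication group. -/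
def innerGroup (Q : Type u) [Mul Q] [One Q] : Subgroup (Equiv.Perm Q) :=
  multGroup Q ⊓ MulAction.stabilizer (Equiv.Perm Q) (1 : Q)

/-- The center `Z(Q)`: the elements which commute and associate with all elements. -/
def center (Q : Type u) [Mul Q] : Set Q :=
  {a | ∀ x y : Q, a * x = x * a ∧ (a * x) * y = a * (x * y) ∧ (x * a) * y = x * (a * y) ∧
    (x * y) * a = x * (y * a)}

/-- `f : Q → P` is a surjective homomorphism onto a loop with kernel `Z(Q)`, that is, it
identifies the loop `P` with `Q / Z(Q)`. -/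
structure IsCentralQuotient (Q P : Type u) [Mul Q] [One Q] [Mul P] [One P] (f : Q → P) :
    Prop where
  loop : IsLoop P
  surjective : Function.Surjective f
  map_mul : ∀ x y, f (x * y) = f x * f y
  ker : ∀ x, f x = 1 ↔ x ∈ center Q

/-- `Q` is centrally nilpotent of class at most `n`: the trivial loop is so for `n = 0`, and `Q`
is so for `n + 1` if `Q / Z(Q)` is so for `n`. -/
def NilpLE : ℕ → (Q : Type u) → Mul Q → One Q → Prop
  | 0, Q, _, _ => Subsingleton Q
  | n + 1, Q, _, _ => ∃ (P : Type u) (mP : Mul P) (oP : One P) (f : Q → P),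
      IsCentralQuotient Q P f ∧ NilpLE n P mP oP

/-- `Q` is generated by three elements: a subset containing them and closed under
multiplication and both divisions is everything. -/
def GenByThree (Q : Type u) [Mul Q] : Prop :=
  ∃ p q r : Q, ∀ S : Set Q, p ∈ S → q ∈ S → r ∈ S →
    (∀ x y z : Q, x * y = z →
      (x ∈ S → y ∈ S → z ∈ S) ∧ (x ∈ S → z ∈ S → y ∈ S) ∧ (y ∈ S → z ∈ S → x ∈ S)) →
    ∀ x, x ∈ S

/-- the auxiliary structure with divisions -/
noncomputable def toLoop (Q : Type u) [Mul Q] [One Q] (h : IsLoop Q) : LpAim.Loop Q where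
  ld a b := (h.left_bijective a).surjective b |>.choose
  rd b a := (h.right_bijective a).surjective b |>.choose
  one_mul' := h.one_mul
  mul_one' := h.mul_one
  mul_ld a b := ((h.left_bijective a).surjective b).choose_spec
  ld_mul a b := (h.left_bijective a).injective
    ((h.left_bijective a).surjective (a * b)).choose_spec
  rd_mul a b := ((h.right_bijective a).surjective b).choose_spec
  mul_rd a b := (h.right_bijective a).injective
    ((h.right_bijective a).surjective (b * a)).choose_spec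

theorem isLoop_of (Q : Type u) [i : LpAim.Loop Q] : IsLoop Q where
  one_mul := LpAim.lone_mul
  mul_one := LpAim.lmul_one
  left_bijective a := (LpAim.L a).bijective
  right_bijective a := (LpAim.R a).bijective

theorem multGroup_eq (Q : Type u) [i : LpAim.Loop Q] : multGroup Q = LpAim.Mlt Q := by
  unfold multGroup LpAim.Mlt
  congr 1
  ext g
  constructor
  · rintro ⟨a, h | h⟩
    · exact Or.inl ⟨a, (Equiv.ext h).symm⟩
    · exact Or.inr ⟨a, (Equiv.ext h).symm⟩
  · rintro (⟨a, rfl⟩ | ⟨a, rfl⟩)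
    · exact ⟨a, Or.inl fun x => rfl⟩
    · exact ⟨a, Or.inr fun x => rfl⟩

theorem innerGroup_eq (Q : Type u) [i : LpAim.Loop Q] : innerGroup Q = LpAim.St (1 : Q) := by
  unfold innerGroup LpAim.St
  rw [multGroup_eq]

/-! ### center and central nilpotency -/

section cen

variable {Q : Type u} [i : LpAim.Loop Q]

theorem mem_center_iff (a : Q) : a ∈ center Q ↔ ∀ g ∈ LpAim.St (1 : Q), g a = a := by
  constructor
  · intro h
    refine LpAim.gens_induction (P := fun g => g a = a) ?_ ?_ ?_ rfl ?_ ?_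
    · intro x
      show LpAim.T x a = a
      rw [LpAim.T_apply]
      exact ((LpAim.eq_rd_iff _ _ _).2 (h x x).1).symm
    · intro x y
      show LpAim.l x y a = a
      rw [LpAim.l_apply]
      exact ((LpAim.eq_ld_iff _ _ _).2 (h x y).2.2.2).symm
    · intro x y
      show LpAim.r x y a = a
      rw [LpAim.r_apply]
      exact ((LpAim.eq_rd_iff _ _ _).2 (h x y).2.1.symm).symm
    · intro g k _ _ hg hk
      rw [Perm.mul_apply, hk, hg]
    · intro g _ hg
      rw [Perm.inv_eq_iff_eq, hg]
  · intro h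
    let z : LpAim.Zn Q := ⟨a, h⟩
    have hc : ∀ x : Q, a * x = x * a := fun x => z.comm x
    have hL : ∀ x y : Q, x * (y * a) = (x * y) * a := fun x y => z.Lz x y
    have hR : ∀ x y : Q, (x * a) * y = (x * y) * a := fun x y => z.Rz y x
    intro x y
    refine ⟨hc x, ?_, ?_, ?_⟩
    · rw [hc x, hR, hc (x * y)]
    · rw [hR, hc y, hL]
    · exact (hL x y).symm

theorem central_quotient : IsCentralQuotient Q (LpAim.QZ Q) (LpAim.pz : Q → LpAim.QZ Q) where
  loop := isLoop_of _
  surjective := LpAim.pz_surj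
  map_mul := LpAim.pz_mul
  ker x := by
    rw [mem_center_iff, ← LpAim.pz_one, eq_comm, LpAim.pz_eq, LpAim.cen_iff']
    constructor
    · rintro ⟨z, hz⟩ g hg
      rw [hz, LpAim.lone_mul]
      exact z.fix hg
    · intro h
      exact ⟨⟨x, h⟩, (LpAim.lone_mul x).symm⟩

theorem nilpLE_of_nilp {Q : Type u} {i : LpAim.Loop Q} (h : LpAim.Nilp Q i) :
    ∃ n, NilpLE n Q inferInstance inferInstance := by
  induction h with
  | triv Q i h => exact ⟨0, h⟩
  | step Q i h ih =>
    obtain ⟨n, hn⟩ := ih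
    exact ⟨n + 1, _, _, _, _, central_quotient, hn⟩

theorem nilpLE_three (hA : LpAim.Al Q) : NilpLE 3 Q inferInstance inferInstance := by
  have h2 : ∀ g ∈ LpAim.St (1 : LpAim.QZ (LpAim.QZ Q)), g = 1 := by
    intro g hg
    obtain ⟨g1, hg1, e1⟩ := LpAim.inner_lift (f := (LpAim.pz : LpAim.QZ Q → _)) LpAim.pz_mul
      LpAim.pz_surj hg
    obtain ⟨g0, hg0, e0⟩ := LpAim.inner_lift (f := (LpAim.pz : Q → _)) LpAim.pz_mul
      LpAim.pz_surj hg1
    ext x
    obtain ⟨x, rfl⟩ := LpAim.pz_surj x
    obtain ⟨w, rfl⟩ := LpAim.pz_surj x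
    rw [← e1, ← e0]
    have hc : LpAim.IsZ2 (LpAim.ld w (g0 w)) := hA g0 hg0 w
    have h1 : g0 w = w * LpAim.ld w (g0 w) := (LpAim.mul_ld _ _).symm
    rw [h1]
    show LpAim.pz (LpAim.pz w * LpAim.pz (LpAim.ld w (g0 w))) = LpAim.pz (LpAim.pz w)
    rw [eq_comm, LpAim.pz_eq, LpAim.cen_iff']
    exact ⟨hc.toZ, rfl⟩
  refine ⟨_, _, _, _, central_quotient, _, _, _, _, central_quotient, _, _, _, _,
    central_quotient, ?_⟩
  refine ⟨fun a b => ?_⟩
  obtain ⟨a, rfl⟩ := LpAim.pz_surj a
  obtain ⟨b, rfl⟩ := LpAim.pz_surj b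
  rw [LpAim.pz_eq, LpAim.cen_iff']
  refine ⟨⟨LpAim.ld a b, fun g hg => ?_⟩, (LpAim.mul_ld a b).symm⟩
  rw [h2 g hg]
  rfl

end cen

/-! ### groups -/

section grp

variable (Q : Type u) [Group Q]

theorem isLoop_group : IsLoop Q where
  one_mul := _root_.one_mul
  mul_one := _root_.mul_one
  left_bijective a := (Equiv.mulLeft a).bijective
  right_bijective a := (Equiv.mulRight a).bijective

/-- conjugation as a homomorphism to the permutations -/
def conjHom : Q →* Equiv.Perm Q := (MulAut.toPerm Q).comp MulAut.conj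

theorem conjHom_apply (g x : Q) : conjHom Q g x = g * x * g⁻¹ := rfl

theorem multGroup_form (m : Equiv.Perm Q) (hm : m ∈ multGroup Q) :
    ∃ a b : Q, ∀ x, m x = a * x * b := by
  refine Subgroup.closure_induction (p := fun m _ => ∃ a b : Q, ∀ x, m x = a * x * b)
    ?_ ?_ ?_ ?_ hm
  · rintro g ⟨a, h | h⟩
    · exact ⟨a, 1, fun x => by rw [h, _root_.mul_one]⟩
    · exact ⟨1, a, fun x => by rw [h, _root_.one_mul]⟩
  · exact ⟨1, 1, fun x => by simp⟩
  · rintro g h _ _ ⟨a, b, hg⟩ ⟨c, d, hh⟩
    exact ⟨a * c, d * b, fun x => by rw [Perm.mul_apply, hh, hg]; group⟩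
  · rintro g _ ⟨a, b, hg⟩
    refine ⟨a⁻¹, b⁻¹, fun x => ?_⟩
    rw [Perm.inv_eq_iff_eq, hg]
    group

theorem conjHom_range : (conjHom Q).range = innerGroup Q := by
  ext m
  constructor
  · rintro ⟨g, rfl⟩
    refine ⟨?_, ?_⟩
    · have h1 : conjHom Q g = Equiv.mulLeft g * Equiv.mulRight g⁻¹ := by
        ext x
        show g * x * g⁻¹ = g * (x * g⁻¹)
        group
      rw [h1]
      exact (multGroup Q).mul_mem (Subgroup.subset_closure ⟨g, Or.inl fun x => rfl⟩)
        (Subgroup.subset_closure ⟨g⁻¹, Or.inr fun x => rfl⟩)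
    · show conjHom Q g 1 = 1
      rw [conjHom_apply]
      group
  · rintro ⟨hm, h1⟩
    obtain ⟨a, b, hab⟩ := multGroup_form Q m hm
    have h1' : m 1 = 1 := h1
    rw [hab, _root_.mul_one] at h1'
    refine ⟨a, ?_⟩
    ext x
    rw [conjHom_apply, hab, eq_inv_of_mul_eq_one_right h1']

theorem conjHom_ker : (conjHom Q).ker = Subgroup.center Q := by
  ext g
  rw [MonoidHom.mem_ker, Subgroup.mem_center_iff]
  constructor
  · intro h x
    have h2 := congrArg (fun m : Equiv.Perm Q => m x) h
    simp only [conjHom_apply, Perm.coe_one, id_eq] at h2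
    exact (mul_inv_eq_iff_eq_mul.1 h2).symm
  · intro h
    ext x
    rw [conjHom_apply, ← h x]
    simp

theorem quot_center_equiv : Nonempty ((Q ⧸ Subgroup.center Q) ≃* innerGroup Q) :=
  ⟨((QuotientGroup.quotientMulEquivOfEq (conjHom_ker Q).symm).trans
    (QuotientGroup.quotientKerEquivRange (conjHom Q))).trans
    (MulEquiv.subgroupCongr (conjHom_range Q))⟩

end grp

/-! ### the finite groups -/

section heis

variable {V W : Type} [AddCommGroup V] [AddCommGroup W] (β : V →+ V →+ W)

/-- the group structure of the Heisenberg type loop -/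
def HGroup : Group (LpAim.HQ V W) :=
  letI := LpAim.HLoop β
  letI : Inv (LpAim.HQ V W) := ⟨fun x => LpAim.rd 1 x⟩
  Group.ofLeftAxioms (LpAim.Hassoc β) LpAim.lone_mul (fun x => LpAim.rd_mul x 1)

theorem mem_center_H (hβ : ∀ v : V, (∀ v' : V, β v v' = β v' v) → v = 0) (x : LpAim.HQ V W) :
    letI := HGroup β
    x ∈ Subgroup.center (LpAim.HQ V W) ↔ x.fst = 0 := by
  letI := HGroup β
  rw [Subgroup.mem_center_iff]
  constructor
  · intro h
    apply hβ
    intro v'
    have h1 : x.snd + 0 + β x.fst v' = 0 + x.snd + β v' x.fst :=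
      (congrArg LpAim.HQ.snd (h (⟨v', 0⟩ : LpAim.HQ V W))).symm
    rw [add_zero, zero_add] at h1
    exact add_left_cancel h1
  · intro h y
    apply LpAim.HQ.ext'
    · show y.fst + x.fst = x.fst + y.fst
      exact add_comm _ _
    · show y.snd + x.snd + β y.fst x.fst = x.snd + y.snd + β x.fst y.fst
      rw [h, map_zero, map_zero, AddMonoidHom.zero_apply, add_comm y.snd]

end heis

theorem map_center_equiv {A : Type u} {B : Type v} [Group A] [Group B] (e : A ≃* B) :
    (Subgroup.center A).map (e : A →* B) = Subgroup.center B := by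
  ext b
  rw [Subgroup.mem_map, Subgroup.mem_center_iff]
  constructor
  · rintro ⟨a, ha, rfl⟩ x
    obtain ⟨y, rfl⟩ := e.surjective x
    rw [Subgroup.mem_center_iff] at ha
    show e y * e a = e a * e y
    rw [← map_mul, ← map_mul, ha y]
  · intro h
    refine ⟨e.symm b, ?_, e.apply_symm_apply b⟩
    rw [Subgroup.mem_center_iff]
    intro x
    apply e.injective
    rw [map_mul, map_mul, e.apply_symm_apply]
    exact h (e x)

/-- The realising groups. -/
theorem exists_group (e : ℕ) (he : e ≠ 0) (D : Type) [CommGroup D] [Finite D]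
    (hD : ∀ d : D, d ^ e = 1) :
    ∃ (P : Type) (_ : Group P), Finite P ∧ (∀ x y : P, x * y * x⁻¹ * y⁻¹ ∈ Subgroup.center P) ∧
      Nat.card P = (e * Nat.card D) ^ 3 ∧
      Nonempty ((Multiplicative (ZMod e) × Multiplicative (ZMod e) × D) ≃*
        P ⧸ Subgroup.center P) := by
  haveI : NeZero e := ⟨he⟩
  letI : Module (ZMod e) (Additive D) := AddCommGroup.zmodModule (fun x => by
    show Additive.ofMul (x.toMul ^ e) = 0
    rw [hD]
    rfl)
  haveI : Finite (Additive D) := ‹Finite D›
  let V := ZMod e × ZMod e × Additive D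
  let W := Additive D × Additive D × ZMod e
  let β : V →+ V →+ W := LpAim.bβ e (Additive D)
  have hβ : ∀ v : V, (∀ v' : V, β v v' = β v' v) → v = 0 := LpAim.bβ_nondeg e (Additive D)
  letI iG : Group (LpAim.HQ V W) := HGroup β
  let π : LpAim.HQ V W →* Multiplicative V :=
    { toFun := fun x => Multiplicative.ofAdd x.fst
      map_one' := rfl
      map_mul' := fun _ _ => rfl }
  have hker : π.ker = Subgroup.center (LpAim.HQ V W) := by
    ext x
    rw [MonoidHom.mem_ker, mem_center_H β hβ x]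
    exact Iff.rfl
  have hsurj : Function.Surjective π := fun v => ⟨⟨v.toAdd, 0⟩, rfl⟩
  let eq1 : LpAim.HQ V W ≃ V × W :=
    { toFun := fun x => (x.fst, x.snd)
      invFun := fun x => ⟨x.1, x.2⟩
      left_inv := fun _ => rfl
      right_inv := fun _ => rfl }
  refine ⟨LpAim.HQ V W, iG, Finite.of_equiv _ eq1.symm, ?_, ?_, ?_⟩
  · intro x y
    rw [← hker, MonoidHom.mem_ker, map_mul, map_mul, map_mul, map_inv, map_inv,
      mul_comm (π x) (π y)]
    group
  · rw [Nat.card_congr eq1]
    simp only [V, W, Nat.card_prod, Nat.card_zmod]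
    have : Nat.card (Additive D) = Nat.card D := rfl
    rw [this]
    ring
  · let χ : (Multiplicative (ZMod e) × Multiplicative (ZMod e) × D) ≃* Multiplicative V :=
      { toFun := fun x => Multiplicative.ofAdd (x.1.toAdd, x.2.1.toAdd, Additive.ofMul x.2.2)
        invFun := fun x => (Multiplicative.ofAdd x.toAdd.1, Multiplicative.ofAdd x.toAdd.2.1,
          x.toAdd.2.2.toMul)
        left_inv := fun x => rfl
        right_inv := fun x => rfl
        map_mul' := fun x y => rfl }
    exact ⟨χ.trans ((QuotientGroup.quotientMulEquivOfEq hker.symm).trans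
      (QuotientGroup.quotientKerEquivOfSurjective π hsurj)).symm⟩

/-! ### the structure theorem -/

theorem structure_loop (Q : Type u) [i : LpAim.Loop Q]
    (hfin : Finite (innerGroup Q))
    (hab : ∀ g ∈ innerGroup Q, ∀ h ∈ innerGroup Q, g * h = h * g) :
    (∃ n, NilpLE n Q inferInstance inferInstance) ∧
    (∃ (P : Type u) (_ : Mul P) (_ : One P) (f : Q → P), IsCentralQuotient Q P f ∧ Finite P) ∧
    (GenByThree Q → NilpLE 3 Q inferInstance inferInstance ∧
      ∀ x y z : Q, ∃ a ∈ center Q, x * (y * z) = ((x * y) * z) * a) := by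
  have hI : innerGroup Q = LpAim.St (1 : Q) := innerGroup_eq Q
  have hQ : LpAim.AIM Q := by
    intro g hg h hh
    exact hab g (by rw [hI]; exact hg) h (by rw [hI]; exact hh)
  haveI hF : Finite (LpAim.St (1 : Q)) :=
    Finite.of_equiv _ (MulEquiv.subgroupCongr hI).toEquiv
  have hN : LpAim.Nilp Q i := LpAim.nilp_of_inner_finite Q hQ
  refine ⟨nilpLE_of_nilp hN, ⟨_, _, _, _, central_quotient, LpAim.finite_quot_cen Q⟩, ?_⟩
  rintro ⟨p, q, r, hgen⟩
  have h3 : LpAim.Gen3 p q r := by
    intro P hp hq hr h1 hm hl hr' x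
    refine hgen {x | P x} hp hq hr ?_ x
    intro x y z hxy
    refine ⟨fun hx hy => ?_, fun hx hz => ?_, fun hy hz => ?_⟩
    · have := hm x y hx hy
      rw [← hxy]
      exact this
    · have h2 : y = LpAim.ld x z := (LpAim.eq_ld_iff x z y).2 hxy
      have := hl x z hx hz
      rw [h2]
      exact this
    · have h2 : x = LpAim.rd z y := (LpAim.eq_rd_iff y z x).2 hxy
      have := hr' z y hz hy
      rw [h2]
      exact this
  obtain ⟨hA, hB⟩ := LpAim.nilp_class hN hQ p q r h3
  refine ⟨nilpLE_three hA, fun x y z => ?_⟩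
  obtain ⟨a, ha⟩ := hB x y z
  refine ⟨a.val, (mem_center_iff _).2 fun g hg => a.fix hg, ?_⟩
  rw [LpAim.l_apply] at ha
  have h4 := ((LpAim.eq_ld_iff (x * y) (x * (y * z)) (z * a.val)).1 ha.symm).symm
  rw [a.Lz] at h4
  exact h4

theorem structure_thm (Q : Type u) [mQ : Mul Q] [oQ : One Q] (hL : IsLoop Q)
    (hfin : Finite (innerGroup Q))
    (hab : ∀ g ∈ innerGroup Q, ∀ h ∈ innerGroup Q, g * h = h * g) :
    (∃ n, NilpLE n Q mQ oQ) ∧
    (∃ (P : Type u) (_ : Mul P) (_ : One P) (f : Q → P), IsCentralQuotient Q P f ∧ Finite P) ∧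
    (GenByThree Q → NilpLE 3 Q mQ oQ ∧
      ∀ x y z : Q, ∃ a ∈ center Q, x * (y * z) = ((x * y) * z) * a) :=
  @structure_loop Q (toLoop Q hL) hfin hab

/-! ### the classification -/

/-- no power subgroup of prime order -/
theorem no_prime_aux (G : Type u) [CommGroup G] [Finite G]
    (Q : Type v) [i : LpAim.Loop Q] (φ₀ : G ≃* innerGroup Q) (n : ℕ) :
    ¬ (Nat.card (powMonoidHom n : G →* G).range).Prime := by
  intro hn
  have φ : G ≃* LpAim.St (1 : Q) := φ₀.trans (MulEquiv.subgroupCongr (innerGroup_eq Q))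
  have hfin : Finite (LpAim.St (1 : Q)) := Finite.of_equiv G φ.toEquiv
  have hQ : LpAim.AIM Q := by
    intro g hg h hh
    have h1 : (⟨g, hg⟩ : LpAim.St (1 : Q)) * ⟨h, hh⟩ = ⟨h, hh⟩ * ⟨g, hg⟩ := by
      obtain ⟨a, ha⟩ := φ.surjective ⟨g, hg⟩
      obtain ⟨b, hb⟩ := φ.surjective ⟨h, hh⟩
      rw [← ha, ← hb, ← map_mul, mul_comm, map_mul]
    exact congrArg Subtype.val h1
  let ψ : G →* Perm Q := (LpAim.St (1 : Q)).subtype.comp φ.toMonoidHom
  have hψ : Function.Injective ψ := (LpAim.St (1 : Q)).subtype_injective.comp φ.injective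
  have hcard : Nat.card ((powMonoidHom n : G →* G).range.map ψ) =
      Nat.card (powMonoidHom n : G →* G).range :=
    Nat.card_congr ((powMonoidHom n : G →* G).range.equivMapOfInjective ψ hψ).toEquiv.symm
  refine LpAim.no_prime hQ n ((powMonoidHom n : G →* G).range.map ψ) (by rw [hcard]; exact hn)
    ?_ ?_
  · intro g hg
    obtain ⟨a, ha⟩ := φ.surjective ⟨g, hg⟩
    refine ⟨a ^ n, ⟨a, rfl⟩, ?_⟩
    show ((φ (a ^ n) : LpAim.St (1 : Q)) : Perm Q) = g ^ n
    rw [map_pow, ha]; rfl
  · rintro _ ⟨_, ⟨a, rfl⟩, rfl⟩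
    refine ⟨φ a, (φ a).2, ?_⟩
    show ((φ a : LpAim.St (1 : Q)) : Perm Q) ^ n = ((φ (a ^ n) : LpAim.St (1 : Q)) : Perm Q)
    rw [map_pow]; rfl

theorem no_prime_of_loop (G : Type u) [CommGroup G] [Finite G]
    (Q : Type v) [mQ : Mul Q] [oQ : One Q] (hL : IsLoop Q) (φ₀ : G ≃* innerGroup Q) (n : ℕ) :
    ¬ (Nat.card (powMonoidHom n : G →* G).range).Prime :=
  @no_prime_aux G _ _ Q (toLoop Q hL) φ₀ n

/-- **Main theorem.**  The finite abelian groups which occur as inner mapping groups of loops are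
exactly the finite capable abelian groups; they already occur for groups of class at most two
and order dividing `|G| ^ 3`; loops with finite abelian inner mapping group are centrally
nilpotent with finite central quotient, and of class at most three when generated by three
elements. -/
theorem result :
    (∀ (G : Type u) [CommGroup G] [Finite G], List.TFAE [
      ∃ (Q : Type v) (_ : Mul Q) (_ : One Q), IsLoop Q ∧ Nonempty (G ≃* innerGroup Q),
      ∃ (Q : Type v) (_ : Group Q), Finite Q ∧ Nat.card Q ∣ Nat.card G ^ 3 ∧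
        (∀ x y : Q, x * y * x⁻¹ * y⁻¹ ∈ Subgroup.center Q) ∧ Nonempty (G ≃* innerGroup Q),
      ∃ (P : Type v) (_ : Group P), Nonempty (G ≃* P ⧸ Subgroup.center P),
      ∃ (e : ℕ) (D : Type) (_ : CommGroup D), 1 ≤ e ∧ Finite D ∧ (∀ d : D, d ^ e = 1) ∧
        Nonempty (G ≃* Multiplicative (ZMod e) × Multiplicative (ZMod e) × D),
      ∀ n : ℕ, ¬ (Nat.card (powMonoidHom n : G →* G).range).Prime]) ∧
    (∀ (Q : Type v) [mQ : Mul Q] [oQ : One Q], IsLoop Q → Finite (innerGroup Q) →
      (∀ g ∈ innerGroup Q, ∀ h ∈ innerGroup Q, g * h = h * g) →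
      (∃ n, NilpLE n Q mQ oQ) ∧
      (∃ (P : Type v) (_ : Mul P) (_ : One P) (f : Q → P),
        IsCentralQuotient Q P f ∧ Finite P) ∧
      (GenByThree Q → NilpLE 3 Q mQ oQ ∧
        ∀ x y z : Q, ∃ a ∈ center Q, x * (y * z) = ((x * y) * z) * a)) := by
  refine ⟨?_, fun Q _ _ hL hfin hab => structure_thm Q hL hfin hab⟩
  intro G _ _
  tfae_have 1 → 5 := by
    rintro ⟨Q, iM, iO, hL, ⟨φ⟩⟩ n
    exact no_prime_of_loop G Q hL φ n
  tfae_have 5 → 4 := by
    intro h
    obtain ⟨e, D, iD, he, hF, hD, hφ⟩ := LpAim.decomp_of_no_prime G h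
    exact ⟨e, D, iD, Nat.one_le_iff_ne_zero.2 he, hF, hD, hφ⟩
  tfae_have 4 → 2 := by
    rintro ⟨e, D, iD, he, hF, hD, ⟨φ⟩⟩
    obtain ⟨P, iP, hPf, hcomm, hcard, ⟨χ⟩⟩ :=
      exists_group e (Nat.one_le_iff_ne_zero.1 he) D hD
    let up : ULift.{v} P ≃* P := MulEquiv.ulift
    have hmap := map_center_equiv up
    have ι : (ULift.{v} P ⧸ Subgroup.center (ULift.{v} P)) ≃* P ⧸ Subgroup.center P :=
      QuotientGroup.congr _ _ up hmap
    obtain ⟨κ⟩ := quot_center_equiv (ULift.{v} P)
    refine ⟨ULift.{v} P, inferInstance, inferInstance, ?_, ?_,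
      ⟨(φ.trans χ).trans (ι.symm.trans κ)⟩⟩
    · have h1 : Nat.card (ULift.{v} P) = (e * Nat.card D) ^ 3 := by
        rw [← hcard]
        exact Nat.card_congr Equiv.ulift
      have h2 : Nat.card G = e * (e * Nat.card D) := by
        rw [Nat.card_congr φ.toEquiv, Nat.card_prod, Nat.card_prod]
        have : Nat.card (Multiplicative (ZMod e)) = e := Nat.card_zmod e
        rw [this]
      rw [h1, h2]
      exact pow_dvd_pow_of_dvd (Dvd.intro_left e rfl) 3
    · intro x y
      have h3 : up (x * y * x⁻¹ * y⁻¹) ∈ Subgroup.center P := by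
        rw [map_mul, map_mul, map_mul, map_inv, map_inv]
        exact hcomm _ _
      rw [← hmap] at h3
      obtain ⟨z, hz, hz2⟩ := h3
      have : z = x * y * x⁻¹ * y⁻¹ := up.injective hz2
      rw [← this]
      exact hz
  tfae_have 2 → 3 := by
    rintro ⟨Q, iQ, _, _, _, ⟨φ⟩⟩
    obtain ⟨κ⟩ := quot_center_equiv Q
    exact ⟨Q, iQ, ⟨φ.trans κ.symm⟩⟩
  tfae_have 3 → 1 := by
    rintro ⟨P, iP, ⟨φ⟩⟩
    obtain ⟨κ⟩ := quot_center_equiv P
    exact ⟨P, inferInstance, inferInstance, isLoop_group P, ⟨φ.trans κ⟩⟩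
  tfae_finish

end Pool.Agent.Results.MP_c6182e_al.CapableExactly
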